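import Pool.Agent.Run7.h573.FK.Iface

/-! Project FK, piece P1: the free Abelian topological group of a compact space is a `k_ℝ`-space. -/

set_option autoImplicit false

namespace Pool.Agent.Run7.h688.FK

open Topology Filter Set Pool.Agent.Run7.h573.FK
open FreeAbelianGroup (of)

universe u

variable {C : Type u} [TopologicalSpace C]

/-- the sums `∑ (of (x i) - of (y i))` with `(x i, y i) ∈ U i` -/
def NN (U : ℕ → Set (C × C)) : Set (FreeAbelianGroup C) :=
  {g | ∃ (n : ℕ) (x y : ℕ → C), (∀ i, (x i, y i) ∈ U i) ∧ (∀ i, n ≤ i → x i = y i) ∧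
    ∑ i ∈ Finset.range n, (of (x i) - of (y i)) = g}

/-- sequences of open neighbourhoods of the diagonal -/
def OD (U : ℕ → Set (C × C)) : Prop := (∀ i, IsOpen (U i)) ∧ ∀ i x, (x, x) ∈ U i

omit [TopologicalSpace C] in
theorem sum_ext {n M : ℕ} {x y : ℕ → C} (h : ∀ i, n ≤ i → x i = y i) (hM : n ≤ M) :
    ∑ i ∈ Finset.range M, ((of (x i) - of (y i) : FreeAbelianGroup C)) =
      ∑ i ∈ Finset.range n, (of (x i) - of (y i)) := by
  symm
  refine Finset.sum_subset (Finset.range_mono hM) fun i _ hi => ?_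
  rw [h i (by simpa using hi), sub_self]

theorem sum_even_odd {A : Type u} [AddCommGroup A] (w : ℕ → A) (M : ℕ) :
    ∑ i ∈ Finset.range (2 * M), w i = ∑ i ∈ Finset.range M, (w (2 * i) + w (2 * i + 1)) := by
  induction M with
  | zero => simp
  | succ M ih =>
    rw [show 2 * (M + 1) = 2 * M + 1 + 1 by ring, Finset.sum_range_succ, Finset.sum_range_succ, ih,
      Finset.sum_range_succ, add_assoc]

/-- interlacing of two sequences -/
def inter (x x' : ℕ → C) (j : ℕ) : C := if j % 2 = 0 then x (j / 2) else x' (j / 2)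

omit [TopologicalSpace C] in
theorem inter_even (x x' : ℕ → C) (i : ℕ) : inter x x' (2 * i) = x i := by
  unfold inter
  rw [if_pos (by omega), show 2 * i / 2 = i by omega]

omit [TopologicalSpace C] in
theorem inter_odd (x x' : ℕ → C) (i : ℕ) : inter x x' (2 * i + 1) = x' i := by
  unfold inter
  rw [if_neg (by omega), show (2 * i + 1) / 2 = i by omega]

/-- the filter basis -/
def basis (C : Type u) [TopologicalSpace C] [Nonempty C] : AddGroupFilterBasis (FreeAbelianGroup C) where
  sets := {S | ∃ U : ℕ → Set (C × C), OD U ∧ S = NN U}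
  nonempty := ⟨NN fun _ => univ, fun _ => univ, ⟨fun _ => isOpen_univ, fun _ _ => trivial⟩, rfl⟩
  inter_sets := by
    rintro _ _ ⟨U, hU, rfl⟩ ⟨V, hV, rfl⟩
    refine ⟨NN fun i => U i ∩ V i, ⟨fun i => U i ∩ V i, ⟨fun i => (hU.1 i).inter (hV.1 i),
      fun i x => ⟨hU.2 i x, hV.2 i x⟩⟩, rfl⟩, ?_⟩
    rintro g ⟨n, x, y, h1, h2, h3⟩
    exact ⟨⟨n, x, y, fun i => (h1 i).1, h2, h3⟩, ⟨n, x, y, fun i => (h1 i).2, h2, h3⟩⟩
  zero' := by
    rintro _ ⟨U, hU, rfl⟩
    obtain ⟨c⟩ := ‹Nonempty C›
    exact ⟨0, fun _ => c, fun _ => c, fun i => hU.2 i c, fun _ _ => rfl, by simp⟩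
  add' := by
    rintro _ ⟨U, hU, rfl⟩
    refine ⟨NN fun i => U (2 * i) ∩ U (2 * i + 1), ⟨_, ⟨fun i => (hU.1 _).inter (hU.1 _),
      fun i x => ⟨hU.2 _ x, hU.2 _ x⟩⟩, rfl⟩, ?_⟩
    rintro _ ⟨g, ⟨n, x, y, h1, h2, h3⟩, g', ⟨n', x', y', h1', h2', h3'⟩, rfl⟩
    refine ⟨2 * max n n', inter x x', inter y y', fun j => ?_, fun j hj => ?_, ?_⟩
    · obtain ⟨i, rfl | rfl⟩ : ∃ i, j = 2 * i ∨ j = 2 * i + 1 := ⟨j / 2, by omega⟩
      · rw [inter_even, inter_even]; exact (h1 i).1
      · rw [inter_odd, inter_odd]; exact (h1' i).2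
    · obtain ⟨i, rfl | rfl⟩ : ∃ i, j = 2 * i ∨ j = 2 * i + 1 := ⟨j / 2, by omega⟩
      · rw [inter_even, inter_even]
        exact h2 i (by have := le_max_left n n'; omega)
      · rw [inter_odd, inter_odd]
        exact h2' i (by have := le_max_right n n'; omega)
    · rw [sum_even_odd]
      simp only [inter_even, inter_odd]
      rw [Finset.sum_add_distrib, sum_ext h2 (le_max_left _ _), sum_ext h2' (le_max_right _ _), h3, h3']
  neg' := by
    rintro _ ⟨U, hU, rfl⟩
    refine ⟨NN fun i => Prod.swap ⁻¹' U i, ⟨_, ⟨fun i => (hU.1 i).preimage continuous_swap,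
      fun i x => hU.2 i x⟩, rfl⟩, ?_⟩
    rintro g ⟨n, x, y, h1, h2, h3⟩
    refine ⟨n, y, x, h1, fun i hi => (h2 i hi).symm, ?_⟩
    show ∑ i ∈ Finset.range n, (of (y i) - of (x i)) = -g
    rw [← h3, ← Finset.sum_neg_distrib]
    exact Finset.sum_congr rfl fun i _ => by rw [neg_sub]
  conj' := by
    rintro g₀ _ ⟨U, hU, rfl⟩
    refine ⟨NN U, ⟨U, hU, rfl⟩, fun g hg => ?_⟩
    show g₀ + g + -g₀ ∈ NN U
    rwa [show g₀ + g + -g₀ = g by abel]

theorem basis_of [Nonempty C] : @Continuous C (FreeAbelianGroup C) _ (basis C).topology of := by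
  letI := (basis C).topology
  haveI : IsTopologicalAddGroup (FreeAbelianGroup C) := (basis C).isTopologicalAddGroup
  rw [continuous_iff_continuousAt]
  intro x₀
  rw [ContinuousAt, ← tendsto_sub_nhds_zero_iff, (basis C).nhds_zero_hasBasis.tendsto_right_iff]
  rintro _ ⟨U, hU, rfl⟩
  have h1 : {x : C | (x, x₀) ∈ U 0} ∈ 𝓝 x₀ :=
    ((hU.1 0).preimage (by fun_prop : Continuous fun x : C => (x, x₀))).mem_nhds (hU.2 0 x₀)
  filter_upwards [h1] with x hx
  refine ⟨1, fun i => if i = 0 then x else x₀, fun _ => x₀, fun i => ?_, fun i hi => ?_, ?_⟩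
  · by_cases h : i = 0
    · subst h; simpa using hx
    · simpa [h] using hU.2 i x₀
  · simp [show i ≠ 0 by omega]
  · simp

theorem NN_mem [Nonempty C] {U : ℕ → Set (C × C)} (hU : OD U) :
    NN U ∈ @nhds _ (freeTop C) (0 : FreeAbelianGroup C) := by
  have h1 : freeTop C ≤ (basis C).topology :=
    sInf_le ⟨(basis C).isTopologicalAddGroup, basis_of⟩
  refine nhds_mono h1 ?_
  exact (basis C).nhds_zero_hasBasis.mem_of_mem (i := NN U) ⟨U, hU, rfl⟩

theorem free_group (C : Type u) [TopologicalSpace C] :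
    @IsTopologicalAddGroup (FreeAbelianGroup C) (freeTop C) _ :=
  topologicalAddGroup_sInf fun _ h => h.1

theorem free_of (C : Type u) [TopologicalSpace C] :
    @Continuous C (FreeAbelianGroup C) _ (freeTop C) of :=
  continuous_sInf_rng.2 fun _ h => h.2

theorem t_P1 : S_P1.{u} := by
  intro C _ _ _ f hf
  rcases isEmpty_or_nonempty C with hC | hC
  · letI := freeTop C
    exact continuous_of_const fun x y => congrArg f (Subsingleton.elim x y)
  letI := freeTop C
  haveI : IsTopologicalAddGroup (FreeAbelianGroup C) := free_group C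
  have hof : Continuous (of : C → FreeAbelianGroup C) := free_of C
  rw [continuous_iff_continuousAt]
  intro a₀
  rw [Metric.continuousAt_iff']
  intro ε hε
  -- the sums
  let sm : (n : ℕ) → (Fin n → C × C) → FreeAbelianGroup C := fun n p =>
    a₀ + ∑ i, (of (p i).1 - of (p i).2)
  have hsm : ∀ n, Continuous (sm n) := by
    intro n
    refine continuous_const.add (continuous_finsetSum _ fun i _ => ?_)
    exact (hof.comp (continuous_fst.comp (continuous_apply i))).sub
      (hof.comp (continuous_snd.comp (continuous_apply i)))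
  have hfc : ∀ {Z : Type u} [TopologicalSpace Z] [CompactSpace Z] (φ : Z → FreeAbelianGroup C),
      Continuous φ → Continuous (fun z => f (φ z)) := by
    intro Z _ _ φ hφ
    exact (hf (range φ) (isCompact_range hφ)).comp_continuous hφ fun z => mem_range_self z
  let D : (n : ℕ) → (Fin n → C × C) × (C × C) → ℝ := fun n z =>
    |f (sm n z.1 + (of z.2.1 - of z.2.2)) - f (sm n z.1)|
  have hD : ∀ n, Continuous (D n) := by
    intro n
    refine ((hfc (fun z : (Fin n → C × C) × (C × C) => sm n z.1 + (of z.2.1 - of z.2.2)) ?_).sub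
      (hfc (fun z : (Fin n → C × C) × (C × C) => sm n z.1) ?_)).abs
    · exact ((hsm n).comp continuous_fst).add
        ((hof.comp (continuous_fst.comp continuous_snd)).sub
          (hof.comp (continuous_snd.comp continuous_snd)))
    · exact (hsm n).comp continuous_fst
  let U : ℕ → Set (C × C) := fun n => {q | ∀ p, D n (p, q) < ε / 2 ^ (n + 2)}
  have hU : OD U := by
    refine ⟨fun n => ?_, fun n x p => ?_⟩
    · have h1 : IsClosed {z : (Fin n → C × C) × (C × C) | ε / 2 ^ (n + 2) ≤ D n z} :=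
        isClosed_le continuous_const (hD n)
      have h2 := isClosedMap_snd_of_compactSpace _ h1
      rw [← isClosed_compl_iff]
      convert h2 using 1
      ext q
      simp only [U, mem_compl_iff, mem_ofPred_eq, not_forall, not_lt, mem_image, Prod.exists,
        exists_and_right, exists_eq_right]
    · show |f (sm n p + (of x - of x)) - f (sm n p)| < _
      rw [sub_self, add_zero, sub_self, abs_zero]
      positivity
  have hN := NN_mem hU
  have h3 : Tendsto (fun a : FreeAbelianGroup C => a - a₀) (𝓝 a₀) (𝓝 0) := by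
    have : Continuous fun a : FreeAbelianGroup C => a - a₀ := continuous_id.sub continuous_const
    have h4 := this.tendsto a₀
    rwa [sub_self] at h4
  filter_upwards [h3 hN] with a ha
  obtain ⟨n, x, y, h1, -, h2⟩ := ha
  have key : ∀ k : ℕ, |f (a₀ + ∑ i ∈ Finset.range k, (of (x i) - of (y i))) - f a₀| ≤
      ε / 2 - ε / 2 ^ (k + 1) := by
    intro k
    induction k with
    | zero => simp
    | succ k ih =>
      have h5 := h1 k (fun i => (x i, y i))
      have h6 : sm k (fun i => (x i, y i)) = a₀ + ∑ i ∈ Finset.range k, (of (x i) - of (y i)) := by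
        show a₀ + ∑ i : Fin k, (of (x i) - of (y i)) = _
        rw [Finset.sum_range]
      have h7 : D k (fun i => (x i, y i), (x k, y k)) =
          |f (a₀ + ∑ i ∈ Finset.range (k + 1), (of (x i) - of (y i))) -
            f (a₀ + ∑ i ∈ Finset.range k, (of (x i) - of (y i)))| := by
        show |f (sm k (fun i => (x i, y i)) + (of (x k) - of (y k))) - f (sm k fun i => (x i, y i))| = _
        rw [h6, Finset.sum_range_succ, add_assoc]
      rw [h7] at h5
      have h8 : ε / 2 ^ (k + 1) = 2 * (ε / 2 ^ (k + 2)) := by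
        rw [pow_succ 2 (k + 1)]
        field_simp
      have h9 := abs_sub_le (f (a₀ + ∑ i ∈ Finset.range (k + 1), (of (x i) - of (y i))))
        (f (a₀ + ∑ i ∈ Finset.range k, (of (x i) - of (y i)))) (f a₀)
      rw [show k + 1 + 1 = k + 2 by rfl]
      linarith
  have h4 := key n
  rw [h2, add_sub_cancel] at h4
  rw [Real.dist_eq]
  have h5 : 0 < ε / 2 ^ (n + 1) := by positivity
  linarith

end Pool.Agent.Run7.h688.FK
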